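import Pool.Agent.Helper21.LQ.Defs

/-! LQ CORE: the local list theorem from the star stage and the edge stage. -/

set_option autoImplicit false

namespace Pool.Agent.Helper21.LQ

open Finset

section
variable {R Γ : Type} [Fintype R] [DecidableEq R] [Fintype Γ] [DecidableEq Γ]

theorem CORE_row (vj wj u : R) (hne : vj ≠ wj) (P : Prop) [Decidable P] (F : R → ℝ) :
    ∑ r, (if P ∧ ((vj = u ∧ wj = r) ∨ (wj = u ∧ vj = r)) then F r else 0) =
      (if vj = u ∧ P then F wj else 0) + (if wj = u ∧ P then F vj else 0) := by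
  by_cases hP : P
  · by_cases hv : vj = u
    · have hw : wj ≠ u := fun h => hne (hv.trans h.symm)
      simp [hP, hv, hw]
    · by_cases hw : wj = u
      · simp [hP, hv, hw]
      · simp [hP, hv, hw]
  · simp [hP]

/-- The external statistic of the colour `γ₀` at the vertex `u`. -/
noncomputable def CORE_a (M : ℕ) (v w : ℕ → R) (K : ℕ → Finset Γ) (De : ℕ → ℕ) (Dm : ℝ)
    (i : R × Γ) (r : R) (γ : Γ) : ℝ :=
  if γ = i.2 then ∑ j ∈ range M,
    (if i.2 ∈ K j ∧ ((v j = i.1 ∧ w j = r) ∨ (w j = i.1 ∧ v j = r)) then Dm / De j else 0) else 0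

theorem CORE_lin (M : ℕ) (v w : ℕ → R) (K : ℕ → Finset Γ) (De : ℕ → ℕ) (Dm : ℝ)
    (hne : ∀ j < M, v j ≠ w j) (i : R × Γ) (X : R → Γ → ℝ) :
    lin (CORE_a M v w K De Dm i) X = Dm * load M v w K De X i.1 i.2 := by
  obtain ⟨u, γ₀⟩ := i
  unfold lin load
  have h1 : ∀ r, ∑ γ, CORE_a M v w K De Dm (u, γ₀) r γ * X r γ =
      ∑ j ∈ range M, (if γ₀ ∈ K j ∧ ((v j = u ∧ w j = r) ∨ (w j = u ∧ v j = r)) then
        Dm / De j * X r γ₀ else 0) := by
    intro r
    rw [Finset.sum_eq_single γ₀]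
    · simp only [CORE_a, if_true]
      rw [Finset.sum_mul]
      refine Finset.sum_congr rfl fun j _ => ?_
      split_ifs <;> simp
    · intro b _ hb
      simp [CORE_a, hb]
    · simp
  simp_rw [h1]
  rw [Finset.sum_comm, Finset.mul_sum]
  refine Finset.sum_congr rfl fun j hj => ?_
  rw [CORE_row (v j) (w j) u (hne j (Finset.mem_range.1 hj)) (γ₀ ∈ K j)
    (fun r => Dm / De j * X r γ₀)]
  rw [mul_add]
  congr 1
  · split_ifs <;> ring
  · split_ifs <;> ring

theorem CORE_sum (M : ℕ) (v w : ℕ → R) (K : ℕ → Finset Γ) (De : ℕ → ℕ) (Dm : ℝ)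
    (hne : ∀ j < M, v j ≠ w j) (i : R × Γ) :
    ∑ r, ∑ γ, CORE_a M v w K De Dm i r γ =
      Dm * ∑ j ∈ range M, (if (v j = i.1 ∨ w j = i.1) ∧ i.2 ∈ K j then 1 / (De j : ℝ) else 0) := by
  have h := CORE_lin M v w K De Dm hne i (fun _ _ => 1)
  have e : lin (CORE_a M v w K De Dm i) (fun _ _ => 1) =
      ∑ r, ∑ γ, CORE_a M v w K De Dm i r γ := by
    unfold lin
    simp
  rw [← e, h]
  congr 1
  unfold load
  refine Finset.sum_congr rfl fun j hj => ?_
  have hn := hne j (Finset.mem_range.1 hj)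
  by_cases h1 : i.2 ∈ K j
  · by_cases h2 : v j = i.1
    · have h3 : w j ≠ i.1 := fun h => hn (h2.trans h.symm)
      simp [h1, h2, h3]
    · by_cases h3 : w j = i.1
      · simp [h1, h2, h3]
      · simp [h1, h2, h3]
  · simp [h1]

theorem CORE_one (M : ℕ) (v w : ℕ → R) (K : ℕ → Finset Γ) (De : ℕ → ℕ) (Dm : ℝ)
    (hD : ∀ j < M, Dm / De j ≤ 1)
    (hdis : ∀ i < M, ∀ j < M, i ≠ j → ¬ ((v i = v j ∧ w i = w j) ∨ (v i = w j ∧ w i = v j)))
    (i : R × Γ) (r : R) (γ : Γ) : CORE_a M v w K De Dm i r γ ≤ 1 := by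
  unfold CORE_a
  split_ifs with h
  · by_cases hex : ∃ j ∈ range M, i.2 ∈ K j ∧ ((v j = i.1 ∧ w j = r) ∨ (w j = i.1 ∧ v j = r))
    · obtain ⟨j, hj, hP⟩ := hex
      rw [Finset.sum_eq_single_of_mem j hj]
      · rw [if_pos hP]
        exact hD j (Finset.mem_range.1 hj)
      · intro j' hj' hne
        rw [if_neg]
        rintro ⟨-, h'⟩
        refine hdis j' (Finset.mem_range.1 hj') j (Finset.mem_range.1 hj) hne ?_
        rcases hP.2 with ⟨a1, a2⟩ | ⟨a1, a2⟩ <;> rcases h' with ⟨b1, b2⟩ | ⟨b1, b2⟩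
        · exact Or.inl ⟨b1.trans a1.symm, b2.trans a2.symm⟩
        · exact Or.inr ⟨b2.trans a2.symm, b1.trans a1.symm⟩
        · exact Or.inr ⟨b1.trans a1.symm, b2.trans a2.symm⟩
        · exact Or.inl ⟨b2.trans a2.symm, b1.trans a1.symm⟩
    · rw [Finset.sum_eq_zero]
      · exact zero_le_one
      · intro j hj
        rw [if_neg]
        exact fun hP => hex ⟨j, hj, hP⟩
  · exact zero_le_one

theorem CORE_nonneg (M : ℕ) (v w : ℕ → R) (K : ℕ → Finset Γ) (De : ℕ → ℕ) (Dm : ℝ)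
    (hDm : 0 ≤ Dm) (i : R × Γ) (r : R) (γ : Γ) : 0 ≤ CORE_a M v w K De Dm i r γ := by
  unfold CORE_a
  split_ifs
  · refine Finset.sum_nonneg fun j _ => ?_
    split_ifs <;> positivity
  · exact le_rfl

theorem CORE_aone (M : ℕ) (v w : ℕ → R) (K : ℕ → Finset Γ) (De : ℕ → ℕ) (Dm : ℝ)
    (hDm : 0 ≤ Dm) (hD : ∀ j < M, Dm / De j ≤ 1)
    (hdis : ∀ i < M, ∀ j < M, i ≠ j → ¬ ((v i = v j ∧ w i = w j) ∨ (v i = w j ∧ w i = v j)))
    (i : R × Γ) (f : R → Option Γ) (hf : Inj f) :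
    ∑ r, ∑ γ, (if f r = some γ then CORE_a M v w K De Dm i r γ else 0) ≤ 1 := by
  have h1 : ∀ r, ∑ γ, (if f r = some γ then CORE_a M v w K De Dm i r γ else 0) =
      if f r = some i.2 then CORE_a M v w K De Dm i r i.2 else 0 := by
    intro r
    rw [Finset.sum_eq_single i.2]
    · intro b _ hb
      have : CORE_a M v w K De Dm i r b = 0 := by simp [CORE_a, hb]
      simp [this]
    · simp
  simp_rw [h1]
  by_cases hex : ∃ r, f r = some i.2
  · obtain ⟨r, hr⟩ := hex
    rw [Finset.sum_eq_single r]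
    · rw [if_pos hr]
      exact CORE_one M v w K De Dm hD hdis i r i.2
    · intro r' _ hne
      rw [if_neg]
      exact fun h => hne (hf r' r i.2 h hr)
    · simp
  · rw [Finset.sum_eq_zero]
    · exact zero_le_one
    · intro r _
      rw [if_neg]
      exact fun h => hex ⟨r, h⟩

end

/-- numerical part -/
theorem CORE_num {ε S H : ℝ} (h0 : 0 < ε) (h1 : ε ≤ 1) (hS : 0 ≤ S) (hH : 0 ≤ H)
    (hSH : H + S ≤ 1 - ε) :
    (1 + 4 * (ε / 64)) * (S + 2 * dl ε + ε / 64) + 1 / (2 / ε) ≤ 1 - (1 + ε / 4) * H := by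
  have hd : 2 * dl ε ≤ ε / 64 := by
    unfold dl
    have : ε ^ 10 ≤ ε := by
      calc ε ^ 10 ≤ ε ^ 1 := pow_le_pow_of_le_one h0.le h1 (by norm_num)
        _ = ε := pow_one ε
    have h2 : ε ^ 10 / 2 ^ 68 ≤ ε / 2 ^ 68 := by gcongr
    have h3 : ε / 2 ^ 68 ≤ ε / 128 := by
      apply div_le_div_of_nonneg_left h0.le (by norm_num) (by norm_num)
    linarith
  have e : 1 / (2 / ε) = ε / 2 := by field_simp
  rw [e]
  have a1 : (1 + 4 * (ε / 64)) * (S + 2 * dl ε + ε / 64) ≤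
      (1 + 4 * (ε / 64)) * (S + ε / 32) := by
    apply mul_le_mul_of_nonneg_left _ (by positivity)
    linarith
  have a2 : (1 + ε / 4) * (H + S) ≤ (1 + ε / 4) * (1 - ε) :=
    mul_le_mul_of_nonneg_left hSH (by positivity)
  nlinarith [mul_nonneg h0.le hS, mul_nonneg h0.le hH, mul_nonneg h0.le (sub_nonneg.2 h1)]

theorem CORE_dl {ε : ℝ} (h0 : 0 < ε) (h1 : ε ≤ 1) : 0 ≤ dl ε ∧ 2 * dl ε ≤ ε / 64 := by
  refine ⟨by unfold dl; positivity, ?_⟩
  unfold dl
  have : ε ^ 10 ≤ ε := by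
    calc ε ^ 10 ≤ ε ^ 1 := pow_le_pow_of_le_one h0.le h1 (by norm_num)
      _ = ε := pow_one ε
  have h2 : ε ^ 10 / 2 ^ 68 ≤ ε / 2 ^ 68 := by gcongr
  have h3 : ε / 2 ^ 68 ≤ ε / 128 := by
    apply div_le_div_of_nonneg_left h0.le (by norm_num) (by norm_num)
  linarith

theorem st_CORE (hT : ST_TST) (hR : ST_RST) : ST_CORE := by
  intro R T Γ _ _ _ _ _ _ ε LN N D L M v w K De h0 h1 hLN hcount hrows hcard hlarge hedge hdis
    hslack
  classical
  set Dm : ℝ := 2 ^ 153 * LN / ε ^ 25 with hDm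
  have hLN0 : 0 < LN := by linarith
  have hDm0 : 0 < Dm := by positivity
  have hDmε : ε ^ 25 * Dm = 2 ^ 153 * LN := by
    rw [hDm]; field_simp
  have hDmDe : ∀ j < M, Dm ≤ De j := by
    intro j hj
    rw [hDm, div_le_iff₀ (by positivity)]
    linarith [(hedge j hj).2.2, mul_comm (ε ^ 25) (De j : ℝ)]
  have hDe0 : ∀ j < M, (0 : ℝ) < De j := fun j hj => lt_of_lt_of_le hDm0 (hDmDe j hj)
  have hDle : ∀ j < M, Dm / De j ≤ 1 := fun j hj => (div_le_one (hDe0 j hj)).2 (hDmDe j hj)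
  have hne : ∀ j < M, v j ≠ w j := fun j hj => (hedge j hj).1
  have hH0 : ∀ r, 0 ≤ ∑ t, (if r ∈ N t then 1 / (D t : ℝ) else 0) := fun r =>
    Finset.sum_nonneg fun t _ => by split_ifs <;> positivity
  have hS0 : ∀ r, 0 ≤ ∑ j ∈ range M, (if v j = r ∨ w j = r then 1 / (De j : ℝ) else 0) := fun r =>
    Finset.sum_nonneg fun t _ => by split_ifs <;> positivity
  have hSle : ∀ (u : R) (γ : Γ),
      ∑ j ∈ range M, (if (v j = u ∨ w j = u) ∧ γ ∈ K j then 1 / (De j : ℝ) else 0) ≤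
        ∑ j ∈ range M, (if v j = u ∨ w j = u then 1 / (De j : ℝ) else 0) := by
    intro u γ
    refine Finset.sum_le_sum fun j _ => ?_
    by_cases h : v j = u ∨ w j = u
    · by_cases h' : γ ∈ K j
      · simp [h, h']
      · simp only [h, h', and_false, if_false, if_true]
        positivity
    · simp [h]
  have hSnn : ∀ (u : R) (γ : Γ),
      0 ≤ ∑ j ∈ range M, (if (v j = u ∨ w j = u) ∧ γ ∈ K j then 1 / (De j : ℝ) else 0) := by
    intro u γ
    refine Finset.sum_nonneg fun j _ => ?_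
    split_ifs <;> positivity
  have hdata : TData ε LN N D L (CORE_a M v w K De Dm) (fun _ : R × Γ => Dm)
      (fun i : Fin M => v i.val) (fun i : Fin M => w i.val) (fun i : Fin M => K i.val)
      (fun i : Fin M => (De i.val : ℝ)) := by
    refine ⟨h0, h1, hLN, ?_, hrows, hcard, hlarge, ?_, ?_, ?_, ?_, ?_, ?_, ?_, ?_⟩
    · rw [Fintype.card_prod, Fintype.card_fin]
      push_cast
      calc _ = 2 * (Fintype.card R : ℝ) * (Fintype.card Γ) + M +
            2 * (Fintype.card T) * (Fintype.card R) +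
            2 * (Fintype.card T) * (Fintype.card Γ) + 2 * (Fintype.card T) +
            (Fintype.card T) * (Fintype.card Γ) ^ 2 := by ring
        _ ≤ _ := hcount
    · intro r
      linarith [hslack r, hS0 r]
    · intro i r γ
      exact CORE_nonneg M v w K De Dm hDm0.le i r γ
    · intro i
      rw [CORE_sum M v w K De Dm hne i]
      have h2 : ∑ j ∈ range M,
          (if (v j = i.1 ∨ w j = i.1) ∧ i.2 ∈ K j then 1 / (De j : ℝ) else 0) ≤ 1 := by
        linarith [hSle i.1 i.2, hslack i.1, hH0 i.1]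
      nlinarith
    · intro i
      rw [hDmε]
    · intro i f hf
      exact CORE_aone M v w K De Dm hDm0.le hDle hdis i f hf
    · intro i
      exact hne i.val i.isLt
    · intro i
      rw [(hedge i.val i.isLt).2.1]
    · intro i
      exact (hedge i.val i.isLt).2.2
  obtain ⟨f, X, f1, f2, f3, f4, f5, f6, f7, f8⟩ := hT R T Γ (R × Γ) (Fin M) ε LN N D L
    (CORE_a M v w K De Dm) (fun _ : R × Γ => Dm)
    (fun i : Fin M => v i.val) (fun i : Fin M => w i.val) (fun i : Fin M => K i.val)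
    (fun i : Fin M => (De i.val : ℝ)) hdata
  obtain ⟨hdl0, hdl⟩ := CORE_dl h0 h1
  have hload : ∀ u γ, load M v w K De X u γ ≤
      ∑ j ∈ range M, (if (v j = u ∨ w j = u) ∧ γ ∈ K j then 1 / (De j : ℝ) else 0) +
        2 * dl ε := by
    intro u γ
    have h2 := (abs_le.1 (f7 (u, γ))).2
    rw [CORE_lin M v w K De Dm hne (u, γ) X, CORE_sum M v w K De Dm hne (u, γ)] at h2
    simp only at h2
    have h3 : Dm * (load M v w K De X u γ -
        ∑ j ∈ range M, (if (v j = u ∨ w j = u) ∧ γ ∈ K j then 1 / (De j : ℝ) else 0)) ≤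
        Dm * (2 * dl ε) := by
      rw [mul_sub]
      linarith
    have h4 := le_of_mul_le_mul_left h3 hDm0
    linarith
  obtain ⟨g, g1, g2⟩ := hR R Γ M v w K De X (2 / ε) (ε / 64) Dm LN
    (by rw [le_div_iff₀ h0]; linarith) (by positivity) (by linarith) hLN
    (by
      refine le_trans ?_ hcount
      have a1 : (0 : ℝ) ≤ (Fintype.card R : ℝ) * Fintype.card Γ := by positivity
      have a2 : (0 : ℝ) ≤ 2 * (Fintype.card T : ℝ) * (Fintype.card R) := by positivity
      have a3 : (0 : ℝ) ≤ 2 * (Fintype.card T : ℝ) * (Fintype.card Γ) := by positivity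
      have a4 : (0 : ℝ) ≤ 2 * (Fintype.card T : ℝ) := by positivity
      have a5 : (0 : ℝ) ≤ (Fintype.card T : ℝ) * (Fintype.card Γ) ^ 2 := by positivity
      nlinarith)
    (by
      have e : ε ^ 25 * (64 * (2 / ε) ^ 6 * LN) = 2 ^ 12 * ε ^ 19 * LN := by
        field_simp
        ring
      have e2 : ε ^ 25 * ((ε / 64) ^ 2 * Dm) = 2 ^ 141 * ε ^ 2 * LN := by
        calc ε ^ 25 * ((ε / 64) ^ 2 * Dm) = (ε / 64) ^ 2 * (ε ^ 25 * Dm) := by ring
          _ = 2 ^ 141 * ε ^ 2 * LN := by rw [hDmε]; ring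
      have h3 : ε ^ 25 * (64 * (2 / ε) ^ 6 * LN) ≤ ε ^ 25 * ((ε / 64) ^ 2 * Dm) := by
        rw [e, e2]
        have : ε ^ 19 ≤ ε ^ 2 := pow_le_pow_of_le_one h0.le h1 (by norm_num)
        have h5 : (0 : ℝ) ≤ ε ^ 2 := by positivity
        have h6 : 2 ^ 12 * ε ^ 19 ≤ 2 ^ 141 * ε ^ 2 := by nlinarith
        exact mul_le_mul_of_nonneg_right h6 hLN0.le
      exact le_of_mul_le_mul_left h3 (by positivity))
    (fun j hj => ⟨(hedge j hj).1, (hedge j hj).2.1, hDmDe j hj⟩)
    hdis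
    (fun u => by linarith [hslack u, hH0 u])
    (by
      intro u γ
      rcases f6 u γ with h | ⟨h2, h3⟩
      · exact Or.inl h
      · refine Or.inr ⟨h2, le_trans ?_ h3⟩
        have hH : ∑ t, (if u ∈ N t ∧ γ ∈ L t u then 1 / (D t : ℝ) else 0) ≤
            ∑ t, (if u ∈ N t then 1 / (D t : ℝ) else 0) := by
          refine Finset.sum_le_sum fun t _ => ?_
          by_cases h : u ∈ N t
          · by_cases h' : γ ∈ L t u
            · simp [h, h']
            · simp only [h, h', and_false, if_false, if_true]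
              positivity
          · simp [h]
        have hH' : 0 ≤ ∑ t, (if u ∈ N t ∧ γ ∈ L t u then 1 / (D t : ℝ) else 0) :=
          Finset.sum_nonneg fun t _ => by split_ifs <;> positivity
        have hn := CORE_num (S := ∑ j ∈ range M,
          (if (v j = u ∨ w j = u) ∧ γ ∈ K j then 1 / (De j : ℝ) else 0))
          (H := ∑ t, (if u ∈ N t ∧ γ ∈ L t u then 1 / (D t : ℝ) else 0)) h0 h1
          (hSnn u γ) hH' (by linarith [hSle u γ, hslack u])
        refine le_trans ?_ hn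
        have hl := hload u γ
        have : (1 + 4 * (ε / 64)) * (load M v w K De X u γ + ε / 64) ≤
            (1 + 4 * (ε / 64)) * (∑ j ∈ range M,
              (if (v j = u ∨ w j = u) ∧ γ ∈ K j then 1 / (De j : ℝ) else 0) +
                2 * dl ε + ε / 64) := by
          apply mul_le_mul_of_nonneg_left _ (by positivity)
          linarith
        linarith)
    (by
      intro j hj
      have h2 := f8 ⟨j, hj⟩
      simp only at h2
      rw [(hedge j hj).2.1] at h2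
      refine le_trans ?_ h2
      have := hDe0 j hj
      nlinarith)
  refine ⟨f, g, f1, f2, f3, f4, ?_, g2, ?_⟩
  · intro j hj
    obtain ⟨γ, hγ, h2, -, -⟩ := g1 j hj
    exact ⟨γ, hγ, h2⟩
  · intro t r j hj hr γ hf hg
    obtain ⟨γ', hγ', h2, h3, h4⟩ := g1 j hj
    rw [hg] at h2
    obtain rfl := Option.some_injective _ h2
    have h5 := f5 t r γ hf
    rcases hr with rfl | rfl
    · exact h3 h5
    · exact h4 h5

end Pool.Agent.Helper21.LQ
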